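import Pool.Agent.Q87.Cox.SpeedLink

set_option autoImplicit false

namespace Pool.Agent.Results.MP_47d77c_pr.Concave

open Filter Topology

/-- The sum over all words `ω` of `n` generators of `r_{ω 0} ⋯ r_{ω (n-1)}` times the length of the
group element spelled by `ω`.  If `Λ` is the sum of the rates, this is `Λ^n` times the expected
distance from the identity after `n` jumps of the walk. -/
noncomputable def wordSum {B : Type} {W : Type} [Group W] [Fintype B] {M : CoxeterMatrix B}
    (cs : CoxeterSystem M W) (r : B → ℝ) (n : ℕ) : ℝ :=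
  ∑ ω : Fin n → B, (∏ k, r (ω k)) * (cs.length (cs.wordProd (List.ofFn ω)) : ℝ)

/-- The expectation `E|Z_t|` of the distance at time `t`, by conditioning on the number of jumps
(a Poisson variable of mean `Λ t`): `exp(-Λt) ∑_n (t^n / n!) (Λ^n E[distance after n jumps])`. -/
noncomputable def meanDist {B : Type} {W : Type} [Group W] [Fintype B] {M : CoxeterMatrix B}
    (cs : CoxeterSystem M W) (r : B → ℝ) (t : ℝ) : ℝ :=
  Real.exp (-(∑ i, r i) * t) * ∑' n : ℕ, t ^ n / (n.factorial : ℝ) * wordSum cs r n

/-- The escape speed of the continuous-time walk on a Coxeter group exists and is a concave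
function of the rates. -/
theorem result {B : Type} {W : Type} [Group W] [Fintype B] {M : CoxeterMatrix B}
    (cs : CoxeterSystem M W) :
    ∃ σ : (B → ℝ) → ℝ,
      (∀ r : B → ℝ, (∀ i, 0 < r i) →
        Tendsto (fun t : ℝ => meanDist cs r t / t) atTop (𝓝 (σ r))) ∧
      ConcaveOn ℝ {r : B → ℝ | ∀ i, 0 < r i} σ :=
  ⟨Pool.Agent.Q87.Cox.Speed.sig cs,
    fun _ hr => Pool.Agent.Q87.Cox.Speed.meanDist_tendsto cs hr,
    Pool.Agent.Q87.Cox.Speed.sig_concave cs⟩

end Pool.Agent.Results.MP_47d77c_pr.Concave
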